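import Mathlib

/-!
# Relations between Frobenius eigenvalues: definitions
-/

set_option autoImplicit false

namespace Pool.Agent.H857.SX

open Polynomial

/-- `x` is a Weil number of weight `w` relative to `q = p ^ a` whose slopes, relative to `q`, have
denominators dividing `D`: it is a root of a monic polynomial with integral coefficients all of whose
complex roots have absolute value `q ^ (w / 2)` and all of whose roots in the algebraic closure of
the field of `p`-adic numbers have valuations in `(1 / D) ℤ` (for the valuation with the value one at
`q`). The eigenvalues of the Frobenius endomorphism of a smooth projective variety over the field with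
`q` elements, on the cohomology group of degree `w` and dimension `b`, have these properties with
`D = b!` (Deligne; the Newton polygon has integral vertices). -/
def IsWeilNumber (p : ℕ) [Fact p.Prime] (a D w : ℕ) (x : ℂ) : Prop :=
  ∃ F : ℤ[X], F.Monic ∧ aeval x F = 0 ∧
    (∀ z : ℂ, aeval z F = 0 → ‖z‖ ^ 2 = ((p : ℝ) ^ a) ^ w) ∧
    ∀ y : PadicAlgCl p, aeval y F = 0 → ∃ r : ℕ, ‖y‖ ^ D = (((p : ℝ) ^ a)⁻¹) ^ r

/-- The number of the roots of `f` (with multiplicities) in the algebraic closure of the field of
`p`-adic numbers which have the slope `r` relative to `q`, that is, the absolute value `q ^ (-r)`. -/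
noncomputable def slopeCount (p : ℕ) [Fact p.Prime] (f : ℤ[X]) (q r : ℝ) : ℕ :=
  open Classical in Multiset.countP (fun x : PadicAlgCl p => ‖x‖ = q ^ (-r))
    (f.aroots (PadicAlgCl p))

/-- The Weil polynomials of degree `2 g` relative to `q = p ^ a` with integral Newton polygons: the
monic polynomials `f` of degree `2 g` with integral coefficients and constant term `q ^ g` all of
whose complex roots have absolute value `√q`, such that the vertices of the Newton polygon of `f`
relative to `q` have integral coordinates (for every slope, the product of the slope and the number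
of the roots of this slope is an integer). The characteristic polynomials of the Frobenius
endomorphisms of the abelian varieties of dimension `g` over the field with `q` elements belong to
this set, and they determine the abelian variety up to isogeny. -/
def weilPolynomials (p : ℕ) [Fact p.Prime] (a g : ℕ) : Set ℤ[X] :=
  {f | (f.Monic ∧ f.natDegree = 2 * g ∧ f.coeff 0 = ((p ^ a : ℕ) : ℤ) ^ g ∧
    ∀ z : ℂ, aeval z f = 0 → ‖z‖ ^ 2 = (p ^ a : ℕ)) ∧
    ∀ r : ℝ, ∃ c : ℤ, r * slopeCount p f ((p : ℝ) ^ a) r = c}

/-- The families of Weil polynomials `f i` of degrees `2 g i`. -/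
def families {I : Type} (g : I → ℕ) (p : ℕ) [Fact p.Prime] (a : ℕ) : Set (I → ℤ[X]) :=
  {f | ∀ i, f i ∈ weilPolynomials p a (g i)}

/-- `x` lies, up to powers, in the group generated by the numbers `ρ k` and `q`. -/
def Generated {κ : Type} [Fintype κ] (q : ℕ) (ρ : κ → ℂ) (x : ℂ) : Prop :=
  ∃ N : ℕ, 0 < N ∧ ∃ (n : κ → ℤ) (t : ℤ), x ^ N = (∏ k, ρ k ^ n k) * (q : ℂ) ^ t

open Classical in
/-- The roots of the polynomials `f i` have no multiplicative relations among themselves and with
the numbers `ρ k`, but those which come from the pairs of conjugate roots `z`, `q / z`: no root is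
conjugate to itself, and if a product of roots lies, up to powers, in the group generated by the
numbers `ρ k` and `q`, then every `z` occurs in the product as often as `q / z`. -/
def Independent {I κ : Type} [Fintype κ] (f : I → ℤ[X]) (q : ℕ) (ρ : κ → ℂ) : Prop :=
  (∀ i, ∀ z : ℂ, aeval z (f i) = 0 → z ^ 2 ≠ q) ∧
    ∀ L : List ℂ, (∀ z ∈ L, ∃ i, aeval z (f i) = 0) → Generated q ρ L.prod →
      ∀ z, L.count z = L.count (q / z)

/-- The exponent of `1 / √q` in the proportion of the exceptional polynomials: `g` for `g ≠ 2`, and
`1` for `g = 2`. -/
def saving (g : ℕ) : ℕ := if g = 2 then 1 else g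

/-- The sum of `q ^ (- saving (g i) / 2)`. -/
noncomputable def rate {I : Type} [Fintype I] (g : I → ℕ) (q : ℝ) : ℝ :=
  ∑ i, (Real.sqrt q)⁻¹ ^ saving (g i)

end Pool.Agent.H857.SX
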