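import Pool.Agent.H857.SX.Indep

/-!
# The exact order of magnitude of the proportion of the exceptional families
-/

set_option autoImplicit false
set_option linter.unusedSectionVars false

namespace Pool.Agent.H857.SX

open Polynomial Pool.Agent.Y1.CT Pool.Agent.W484.HS Pool.Agent.H857.PA Pool.Agent.H857.HK
  Pool.Agent.H857.PB

lemma expo_add_saving {g : ℕ} (hg : 0 < g) : expo g + saving g = tot g := by
  rw [saving, tot]
  by_cases h : g = 2
  · subst h
    rw [if_pos rfl, expo, if_pos rfl]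
  · rw [if_neg h]
    have h1 := expo_spec hg h
    obtain ⟨k, rfl⟩ : ∃ k, g = k + 1 := ⟨g - 1, by omega⟩
    rw [Nat.add_sub_cancel] at h1
    have h2 : (k + 1) * (k + 1 + 1) = (k + 1) * k + 2 * (k + 1) := by ring
    omega

variable {I : Type} [Fintype I]

lemma famBound_eq [DecidableEq I] {g : I → ℕ} (hg : ∀ i, 0 < g i) {Q : ℝ} (hQ : 0 < Q) :
    famBound g Q = (∑ i, Q⁻¹ ^ saving (g i)) * ∏ i, Q ^ tot (g i) := by
  rw [famBound, Finset.sum_mul]
  refine Finset.sum_congr rfl fun i _ => ?_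
  rw [← Finset.mul_prod_erase Finset.univ _ (Finset.mem_univ i), ← mul_assoc,
    ← expo_add_saving (hg i), pow_add, inv_pow]
  congr 1
  have h1 : Q ^ saving (g i) ≠ 0 := pow_ne_zero _ hQ.ne'
  field_simp

lemma families_eq (g : I → ℕ) (p : ℕ) [Fact p.Prime] (a : ℕ) :
    families g p a = fams g p a := rfl

/-- The upper bound for the number of all the families. -/
lemma fams_upper (g : I → ℕ) {p : ℕ} [Fact p.Prime] {a : ℕ} :
    ((fams g p a).ncard : ℝ) ≤ (∏ i, ((3 * (4 : ℝ) ^ g i) ^ g i)) *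
      ∏ i, Real.sqrt ((p : ℝ) ^ a) ^ tot (g i) := by
  classical
  have hp : p.Prime := Fact.out
  have hq : 0 < p ^ a := pow_pos hp.pos _
  have h1 : ∀ i, ((newtonWeil p a (g i)).ncard : ℝ) ≤ (3 * (4 : ℝ) ^ g i) ^ g i *
      Real.sqrt ((p : ℝ) ^ a) ^ tot (g i) := by
    intro i
    have h2 : (newtonWeil p a (g i)) ⊆ (((Fintype.piFinset (box (p ^ a) (g i))).image
        (wp (p ^ a) (g i)) : Finset ℤ[X]) : Set ℤ[X]) := by
      intro f hf
      obtain ⟨x, hx, -⟩ := Pool.Agent.W521.Count.exists_point hq.ne' hf.1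
      rw [Finset.mem_coe, Finset.mem_image]
      have hfx : f = wp (p ^ a) (g i) x := hx
      exact ⟨x, mem_box hq.ne' (hfx ▸ hf.1), hfx.symm⟩
    have h3 := Set.ncard_le_ncard h2 (Finset.finite_toSet _)
    rw [Set.ncard_coe_finset] at h3
    have h4 := card_all_box (g := g i) hq
    rw [ncast_pow] at h4
    refine le_trans ?_ h4
    exact_mod_cast h3.trans Finset.card_image_le
  rw [fams, ncard_box (fun i => newtonWeil p a (g i)) (fun i => newtonWeil_finite),
    Nat.cast_prod, ← Finset.prod_mul_distrib]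
  exact Finset.prod_le_prod (fun i _ => Nat.cast_nonneg _) fun i _ => h1 i

/-- Independence for families of Weil polynomials. -/
lemma indep_iff {κ : Type} [Fintype κ] {g : I → ℕ} {p : ℕ} [Fact p.Prime] {a : ℕ} (ha : 0 < a)
    {ρ : κ → ℂ} {f : I → ℤ[X]} (hf : f ∈ fams g p a) :
    NoRel f (p ^ a) (Generated (p ^ a) ρ) ↔ Independent f (p ^ a) ρ := by
  have hp : p.Prime := Fact.out
  refine noRel_iff (Nat.one_lt_pow ha.ne' hp.one_lt) (fun i => (hf i).1.1) ?_
  rintro i z hz rfl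
  have h1 := (hf i).1.2.2.2 0 hz
  rw [norm_zero, zero_pow two_ne_zero] at h1
  exact pow_ne_zero a hp.ne_zero (by exact_mod_cast h1.symm)

/-- **The exact order of magnitude of the proportion of the exceptional families.** -/
theorem exists_rate {g : I → ℕ} (hg : ∀ i, 0 < g i) (r : ℕ) {D : ℕ} (hD : 0 < D) (c : ℕ) :
    ∃ C : ℝ, 0 < C ∧ ∀ (p : ℕ) [Fact p.Prime] (a : ℕ), 0 < a →
      (∏ i, Real.sqrt ((p : ℝ) ^ a) ^ (g i * (g i + 1) / 2) ≤ C * (families g p a).ncard ∧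
        (families g p a).ncard ≤ C * ∏ i, Real.sqrt ((p : ℝ) ^ a) ^ (g i * (g i + 1) / 2)) ∧
      ∀ (w : Fin r → ℕ) (ρ : Fin r → ℂ), (∀ k, w k < c ∧ IsWeilNumber p a D (w k) (ρ k)) →
        ({f ∈ families g p a | ¬ Independent f (p ^ a) ρ}.ncard : ℝ) ≤
          C * (rate g ((p : ℝ) ^ a) * (families g p a).ncard) ∧
        rate g ((p : ℝ) ^ a) * (families g p a).ncard ≤
          C * {f ∈ families g p a | ¬ Independent f (p ^ a) ρ}.ncard := by
  classical
  obtain ⟨C₁, hC₁, h₁⟩ := exists_upper g (Fin r) hg hD c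
  set C₂ := lowConst g with hC₂
  have hC₂0 : 0 < C₂ := lowConst_pos g
  set C₃ : ℝ := ∏ i, ((3 * (4 : ℝ) ^ g i) ^ g i) with hC₃
  have hC₃0 : 0 < C₃ := Finset.prod_pos fun i _ => by positivity
  set C₄ : ℝ := Fintype.card I * lowConst g with hC₄
  have hC₄0 : 0 ≤ C₄ := mul_nonneg (Nat.cast_nonneg _) hC₂0.le
  set C : ℝ := C₂ + C₃ + C₁ * C₂ + C₃ * C₄ with hC
  have hC12 : 0 ≤ C₁ * C₂ := by positivity
  have hC34 : 0 ≤ C₃ * C₄ := by positivity
  refine ⟨C, by positivity, fun p _ a ha => ?_⟩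
  have hp : p.Prime := Fact.out
  have hsq : 0 < Real.sqrt ((p : ℝ) ^ a) := by
    rw [Real.sqrt_pos]
    have : (0 : ℝ) < p := by exact_mod_cast hp.pos
    positivity
  set T : ℝ := ∏ i, Real.sqrt ((p : ℝ) ^ a) ^ tot (g i) with hT
  have hT0 : 0 < T := Finset.prod_pos fun i _ => by positivity
  set S : ℝ := ∑ i, (Real.sqrt ((p : ℝ) ^ a))⁻¹ ^ saving (g i) with hS
  have hS0 : 0 ≤ S := Finset.sum_nonneg fun i _ => by positivity
  have hlow : T ≤ C₂ * ((fams g p a).ncard : ℝ) := fams_lower g ha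
  have hup : ((fams g p a).ncard : ℝ) ≤ C₃ * T := fams_upper g
  have hn0 : (0 : ℝ) ≤ ((fams g p a).ncard : ℝ) := Nat.cast_nonneg _
  have hfb : famBound g (Real.sqrt ((p : ℝ) ^ a)) = S * T := famBound_eq hg hsq
  refine ⟨⟨?_, ?_⟩, fun w ρ hρ => ?_⟩
  · refine hlow.trans ?_
    rw [families_eq]
    exact mul_le_mul_of_nonneg_right (by linarith) hn0
  · refine hup.trans ?_
    exact mul_le_mul_of_nonneg_right (by linarith) hT0.le
  · have hset : {f ∈ families g p a | ¬ Independent f (p ^ a) ρ} =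
        {f ∈ fams g p a | ¬ NoRel f (p ^ a) (Gen (p ^ a) ρ)} := by
      ext f
      constructor
      · rintro ⟨h1, h2⟩
        exact ⟨h1, fun h3 => h2 ((indep_iff ha h1).1 h3)⟩
      · rintro ⟨h1, h2⟩
        exact ⟨h1, fun h3 => h2 ((indep_iff ha h1).2 h3)⟩
    rw [hset, families_eq]
    have hE0 : (0 : ℝ) ≤ ({f ∈ fams g p a | ¬ NoRel f (p ^ a) (Gen (p ^ a) ρ)}.ncard : ℝ) :=
      Nat.cast_nonneg _
    constructor
    · have h1 := h₁ p a ha w ρ hρ
      rw [hfb] at h1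
      refine h1.trans ?_
      change C₁ * (S * T) ≤ C * (S * ((fams g p a).ncard : ℝ))
      calc C₁ * (S * T) ≤ C₁ * (S * (C₂ * ((fams g p a).ncard : ℝ))) :=
            mul_le_mul_of_nonneg_left (mul_le_mul_of_nonneg_left hlow hS0) hC₁.le
        _ = (C₁ * C₂) * (S * ((fams g p a).ncard : ℝ)) := by ring
        _ ≤ C * (S * ((fams g p a).ncard : ℝ)) :=
            mul_le_mul_of_nonneg_right (by linarith) (mul_nonneg hS0 hn0)
    · have h1 := exc_lower g hg (p := p) ha (Gen (p ^ a) ρ)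
      rw [hfb] at h1
      change S * ((fams g p a).ncard : ℝ) ≤ _
      calc S * ((fams g p a).ncard : ℝ) ≤ S * (C₃ * T) := mul_le_mul_of_nonneg_left hup hS0
        _ = C₃ * (S * T) := by ring
        _ ≤ C₃ * (C₄ * ({f ∈ fams g p a | ¬ NoRel f (p ^ a) (Gen (p ^ a) ρ)}.ncard : ℝ)) :=
            mul_le_mul_of_nonneg_left h1 hC₃0.le
        _ = (C₃ * C₄) * ({f ∈ fams g p a | ¬ NoRel f (p ^ a) (Gen (p ^ a) ρ)}.ncard : ℝ) := by
            ring
        _ ≤ C * ({f ∈ fams g p a | ¬ NoRel f (p ^ a) (Gen (p ^ a) ρ)}.ncard : ℝ) :=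
            mul_le_mul_of_nonneg_right (by linarith) hE0

end Pool.Agent.H857.SX
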