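import Pool.Agent.H857.SX.Defs
import Pool.Agent.H857.PA.Main
import Pool.Agent.H857.HK.Zeta

/-!
# Independence and the absence of relations
-/

set_option autoImplicit false
set_option linter.unusedSectionVars false

namespace Pool.Agent.H857.SX

open Polynomial Pool.Agent.Y1.CT Pool.Agent.W484.HS Pool.Agent.H857.PA Pool.Agent.H857.HK

section

variable {I κ : Type} [Fintype κ] {f : I → ℤ[X]} {q : ℕ} {ρ : κ → ℂ}

lemma Generated.inv {x : ℂ} (h : Generated q ρ x) : Generated q ρ x⁻¹ := by
  obtain ⟨N, hN, n, t, h1⟩ := h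
  refine ⟨N, hN, fun k => - n k, -t, ?_⟩
  rw [inv_pow, h1, mul_inv, ← Finset.prod_inv_distrib, zpow_neg]
  congr 1
  refine Finset.prod_congr rfl fun k _ => ?_
  rw [zpow_neg]

lemma Generated.mul_q (hq : (q : ℂ) ≠ 0) {x : ℂ} (h : Generated q ρ x) (m : ℤ) :
    Generated q ρ (x * (q : ℂ) ^ m) := by
  obtain ⟨N, hN, n, t, h1⟩ := h
  refine ⟨N, hN, n, t + m * N, ?_⟩
  rw [mul_pow, h1, zpow_add₀ hq, zpow_mul, zpow_natCast, mul_assoc]

lemma Generated.root (hq : (q : ℂ) ≠ 0) {x y : ℂ} (h : Generated q ρ y) {s s' : ℕ} (hs : 0 < s)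
    {m : ℤ} (hx : x ^ s * y ^ s' = (q : ℂ) ^ m) : Generated q ρ x := by
  obtain ⟨N, hN, n, t, h1⟩ := h
  refine ⟨s * N, Nat.mul_pos hs hN, fun k => - (s' * n k), m * N - s' * t, ?_⟩
  have h2 : (x ^ (s * N)) * ((∏ k, ρ k ^ n k) * (q : ℂ) ^ t) ^ s' = (q : ℂ) ^ (m * N) := by
    rw [← h1, ← pow_mul, pow_mul, mul_comm N s', pow_mul y s' N, ← mul_pow, hx, zpow_mul,
      zpow_natCast]
  have h3 : ((∏ k, ρ k ^ n k) * (q : ℂ) ^ t) ^ s' ≠ 0 := by
    intro h4
    rw [h4, mul_zero] at h2
    exact zpow_ne_zero _ hq h2.symm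
  apply mul_right_cancel₀ h3
  have h5 : ∏ k, ρ k ^ (-(s' * n k)) = ((∏ k, ρ k ^ n k) ^ s')⁻¹ := by
    rw [← Finset.prod_pow, ← Finset.prod_inv_distrib]
    refine Finset.prod_congr rfl fun k _ => ?_
    rw [zpow_neg, mul_comm (s' : ℤ), zpow_mul, zpow_natCast]
  rw [h2, h5, mul_pow]
  have h6 : (∏ k, ρ k ^ n k) ^ s' ≠ 0 := by
    intro h7
    rw [mul_pow, h7, zero_mul] at h3
    exact h3 rfl
  have h8 : ((q : ℂ) ^ t) ^ s' = (q : ℂ) ^ (s' * t) := by
    rw [mul_comm, zpow_mul, zpow_natCast]
  rw [h8, zpow_sub₀ hq]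
  have h9 : (q : ℂ) ^ ((s' : ℤ) * t) ≠ 0 := zpow_ne_zero _ hq
  field_simp

open Classical in
/-- The two notions. -/
theorem noRel_iff (hq : 1 < q) (hmon : ∀ i, (f i).Monic)
    (h0 : ∀ i, ∀ z : ℂ, aeval z (f i) = 0 → z ≠ 0) :
    NoRel f q (Generated q ρ) ↔ Independent f q ρ := by
  have hq0 : (q : ℂ) ≠ 0 := by exact_mod_cast (by omega : q ≠ 0)
  constructor
  · intro hR
    refine ⟨?_, ?_⟩
    · intro i z hz hzq
      have h1 : Generated q ρ z⁻¹ := by
        refine ⟨2, two_pos, 0, -1, ?_⟩
        rw [inv_pow, hzq]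
        simp
      have h2 := hR.pair 1 one_pos z⁻¹ h1 1 0 1 one_pos one_pos [⟨z, i, hz⟩] rfl (by
        simp [mul_inv_cancel₀ (h0 i z hz)])
      exact h2 (List.pairwise_singleton _ _)
    · -- balanced
      have key : ∀ (n : ℕ) (L : List (Rt f)), L.length = n →
          Generated q ρ (L.map fun z : Rt f => (z : ℂ)).prod → ∀ x : ℂ,
          (L.map fun z : Rt f => (z : ℂ)).count x =
            (L.map fun z : Rt f => (z : ℂ)).count (q / x) := by
        intro n
        induction n using Nat.strong_induction_on with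
        | _ n ih =>
          intro L hL hG x
          rcases Nat.eq_zero_or_pos n with hn | hn
          · subst hn
            obtain rfl : L = [] := List.length_eq_zero_iff.1 hL
            simp
          · have hne : (L.map fun z : Rt f => (z : ℂ)).prod ≠ 0 := by
              refine List.prod_ne_zero fun h1 => ?_
              obtain ⟨⟨z, i, hz⟩, -, h2⟩ := List.mem_map.1 h1
              exact h0 i z hz h2
            have h1 := hR.pair 1 one_pos _ hG.inv n 0 1 one_pos hn L hL (by
              have h5 : (L.map fun z : Rt f => (z : ℂ) ^ 1) = L.map fun z : Rt f => (z : ℂ) := by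
                simp
              rw [h5, mul_inv_cancel₀ hne]
              simp)
            obtain ⟨y, y', L', hperm, hyy⟩ := exists_pair
              (fun y y' : Rt f => (y : ℂ) ^ 1 * (y' : ℂ) ^ 1 = (q : ℂ) ^ 1) L h1
            rw [pow_one, pow_one, pow_one] at hyy
            have hy0 : (y : ℂ) ≠ 0 := by
              intro h0
              rw [h0, zero_mul] at hyy
              exact hq0 hyy.symm
            have hlen : n = L'.length + 2 := by
              rw [← hL, hperm.length_eq]
              simp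
            have hprod : (L.map fun z : Rt f => (z : ℂ)).prod =
                q * (L'.map fun z : Rt f => (z : ℂ)).prod := by
              rw [(hperm.map _).prod_eq, List.map_cons, List.map_cons, List.prod_cons,
                List.prod_cons, ← mul_assoc, hyy]
            have h3 := ih L'.length (by omega) L' rfl (by
              have h6 := hG.mul_q hq0 (-1)
              rw [hprod, mul_comm (q : ℂ), mul_assoc] at h6
              simpa [mul_inv_cancel₀ hq0] using h6) x
            have hc := fun z => (hperm.map fun z : Rt f => (z : ℂ)).count_eq z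
            rw [hc, hc, List.map_cons, List.map_cons, List.count_cons, List.count_cons,
              List.count_cons, List.count_cons, h3]
            have h4 : (y' : ℂ) = q / y := by rw [← hyy, mul_div_cancel_left₀ _ hy0]
            have h5 : ((y' : ℂ) == x) = ((y : ℂ) == q / x) := by
              rw [Bool.eq_iff_iff, beq_iff_eq, beq_iff_eq, h4]
              constructor
              · intro h
                rw [← h, div_div_cancel₀ hq0]
              · intro h
                rw [h, div_div_cancel₀ hq0]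
            have h6 : ((y : ℂ) == x) = ((y' : ℂ) == q / x) := by
              rw [Bool.eq_iff_iff, beq_iff_eq, beq_iff_eq, h4]
              constructor
              · intro h
                rw [h]
              · intro h
                have h7 := congrArg (fun z => (q : ℂ) / z) h
                rwa [div_div_cancel₀ hq0, div_div_cancel₀ hq0] at h7
            rw [h5, h6]
            omega
      intro L hroot hG x
      obtain ⟨L', rfl⟩ := exists_lift f L hroot
      exact key _ L' rfl hG x
  · rintro ⟨hne, hbal⟩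
    refine ⟨hmon, ⟨1, one_pos, 0, 0, by simp⟩, ?_⟩
    intro s hs ρ0 hρ0 n c s' hs' hn ys hlen hrel hpw
    have hrel' : (ys.map fun z : Rt f => (z : ℂ)).prod ^ (s * s') * ρ0 ^ s' =
        (q : ℂ) ^ ((s : ℤ) * c * s') := by
      have h1 : (ys.map fun z : Rt f => (z : ℂ) ^ s).prod =
          (ys.map fun z : Rt f => (z : ℂ)).prod ^ s := by
        clear hrel hpw hlen
        induction ys with
        | nil => simp
        | cons y ys ih => rw [List.map_cons, List.prod_cons, ih, List.map_cons, List.prod_cons, mul_pow]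
      have h2 : ((ys.map fun z : Rt f => (z : ℂ) ^ s).prod * ρ0) ^ s' =
          (((q : ℂ) ^ s) ^ c) ^ s' := hrel
      rw [h1, mul_pow, ← pow_mul] at h2
      rw [h2, zpow_mul, zpow_mul, zpow_natCast, zpow_natCast]
    have hG := hρ0.root hq0 (Nat.mul_pos hs hs') hrel'
    have hcount := hbal (ys.map fun z : Rt f => (z : ℂ)) (by
      intro z hz
      obtain ⟨⟨z, hz'⟩, -, rfl⟩ := List.mem_map.1 hz
      exact hz') hG
    obtain ⟨y, ys, rfl⟩ : ∃ y l, ys = y :: l := by
      cases ys with
      | nil => simp at hlen; omega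
      | cons y l => exact ⟨y, l, rfl⟩
    have h1 : 0 < ((y :: ys).map fun z : Rt f => (z : ℂ)).count (q / (y : ℂ)) := by
      rw [← hcount (y : ℂ), List.count_pos_iff]
      simp
    obtain ⟨u, hu1, hu2⟩ := List.mem_map.1 (List.count_pos_iff.1 h1)
    have hy0 : (y : ℂ) ≠ 0 := by
      obtain ⟨i, hi⟩ := y.2
      exact h0 i _ hi
    have huy : u ≠ y := by
      rintro rfl
      obtain ⟨i, hi⟩ := u.2
      apply hne i _ hi
      rw [sq]
      nth_rewrite 2 [hu2]
      exact mul_div_cancel₀ _ hy0
    have hu3 : u ∈ ys := by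
      rcases List.mem_cons.1 hu1 with h2 | h2
      · exact absurd h2 huy
      · exact h2
    have h2 := List.rel_of_pairwise_cons hpw hu3
    apply h2
    change (y : ℂ) ^ s * (u : ℂ) ^ s = (q : ℂ) ^ s
    rw [← mul_pow, hu2, mul_div_cancel₀ _ hy0]

end

end Pool.Agent.H857.SX
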