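import Mathlib
import Pool.Graph.R_pool_sql_team_seeded_2aa45f1a.Q70.CT.PoleDefs

/-!
# Products of abelian varieties with arbitrary varieties: definitions
-/

set_option autoImplicit false

open CategoryTheory AlgebraicGeometry

universe u v w

namespace Pool.Agent.H857.SX

open Polynomial Pool.Agent.H914 Pool.Agent.H914.VarClass Pool.Agent.H914.VarClass.Obj
  Pool.Agent.W492.BB Pool.Agent.W484.CK Pool.Agent.Q70.CT

variable {k : Type u} [Field k] {𝒱 : VarClass k} {C : TheoryData.{u, v, 0} 𝒱 ℚ} {F : Type w}
  [Field F] (H : WeilTheoryData.{u, v, w} C F) {A Z : 𝒱.Obj}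

/-- `πA` is the Frobenius endomorphism of an abelian variety `A` over the field with `q ^ s`
elements, isogenous to a product of powers of abelian varieties coming from the field with `q`
elements with the characteristic polynomials `f i`; `Z` is any variety over the field with `q ^ s`
elements, and the eigenvalues of its Frobenius endomorphism `πZ` on the cohomology and their
conjugates have the property `R`. -/
structure IsPairOver [CharZero F] (R : ℂ → Prop) {I : Type} (q s : ℕ) (f : I → ℤ[X])
    (πA : A ⟶ A) (πZ : Z ⟶ Z) : Prop where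
  standard : IsStandard H
  pos : 0 < s
  abelian : IsAbelian H πA q s f
  eigenvalues : ∃ χ : ℚ[X], χ ≠ 0 ∧
    (∀ (ρ : F) (v : H.A Z), v ≠ 0 → H.up πZ v = ρ • v → aeval ρ χ = 0) ∧
    ∀ ρ : ℂ, aeval ρ χ = 0 → R ρ

/-- `TateForProducts q f R`: the following holds for the Chow groups `C` with rational coefficients
of all classes `𝒱` of varieties over fields `k` (finite, in the intended use), every Weil cohomology
theory `H` with coefficients in an algebraically closed field `F` of characteristic zero, all `A`,
`Z` as in `IsPairOver` where the Frobenius endomorphism `πA × πZ` acts on the Chow groups of `A × Z`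
in the usual way: the four rules `PositiveRanks`, `RankRule`, `PoleRule`, `DefectRule` hold for
`A × Z` with `Q = q ^ s`. In particular the formula of Tate holds for `A × Z` at `s = c` if and only
if it holds for `Z` at all `c - i` with `0 ≤ i ≤ dim A`. -/
def TateForProducts {I : Type} (q : ℕ) (f : I → ℤ[X]) (R : ℂ → Prop) : Prop :=
  ∀ (k : Type) [Field k] (𝒱 : VarClass k) (C : TheoryData.{0, 0, 0} 𝒱 ℚ) [IsChow C]
    (F : Type) [Field F] [IsAlgClosed F] [CharZero F] (H : WeilTheoryData.{0, 0, 0} C F)
    [IsWeil H] (s : ℕ) (A Z : 𝒱.Obj) (πA : A ⟶ A) (πZ : Z ⟶ Z),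
      IsPairOver H R q s f πA πZ → IsFrobenius C (prodMap πA πZ) (q ^ s) →
      PositiveRanks H A ∧ RankRule H A Z ∧ PoleRule H πA πZ (q ^ s) ∧
        DefectRule H πA πZ (q ^ s)

end Pool.Agent.H857.SX
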