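import Pool.Agent.H857.SX.PairDefs
import Pool.Graph.R_pool_sql_team_seeded_2aa45f1a.Q70.CT.PoleMain

/-!
# Products of abelian varieties without relations with arbitrary varieties
-/

set_option autoImplicit false
set_option linter.unusedSectionVars false
set_option linter.unusedVariables false

open CategoryTheory AlgebraicGeometry

universe u v w

namespace Pool.Agent.H857.SX

open Polynomial Module Pool.Agent.H914 Pool.Agent.H914.VarClass Pool.Agent.H914.VarClass.Obj
  Pool.Agent.W492.BB Pool.Agent.W484.CH Pool.Agent.Y1.CT Pool.Agent.W550.Corr Pool.Agent.Q70.CT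

theorem tateForProducts {I : Type} {q : ℕ} (hq : 1 < q) {f : I → ℤ[X]} {R : ℂ → Prop}
    (hR : NoRel f q R) : TateForProducts q f R := by
  intro k _ 𝒱 C _ F _ _ _ H _ s A Z πA πZ hsit hF
  obtain ⟨J, hJ, deg, D, E', hne, h, hD, hK⟩ := kunneth_gen hq hR
    (W484.CK.isStandard_bridge hsit.standard) hsit.pos (W484.CK.isAbelian_bridge hsit.abelian)
    (πZ := πZ) hsit.eigenvalues
  have hQ : q ^ s ≠ 0 := pow_ne_zero _ (by omega)
  have hπA := W484.CK.isFrobenius_bridge hsit.abelian.frobenius
  have hS := W484.CK.isStandard_bridge hsit.standard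
  have hF' := W484.CK.isFrobenius_bridge hF
  have hβ : ∀ i, numRank H A i = Fintype.card {j : J // deg j = i} := fun i => by
    rw [numRank_eq]
    exact finrank_num_abelian hS h hQ hπA hF' hK i
  have hpos : ∀ i ≤ A.dim, 0 < numRank H A i := by
    intro i hi
    obtain ⟨j, hj⟩ := exists_deg hS h hπA hK hD hi
    rw [hβ, Fintype.card_pos_iff]
    exact ⟨⟨j, hj⟩⟩
  have hrank : ∀ c : ℕ, (numRank H (A.prod Z) c : ℤ) = ∑ i ∈ Finset.range (A.dim + 1),
      (numRank H A i : ℤ) * (if i ≤ c then (numRank H Z (c - i) : ℤ) else 0) := by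
    intro c
    rw [← sum_group deg A.dim h.le (fun i => if i ≤ c then (numRank H Z (c - i) : ℤ) else 0) _ hβ,
      numRank_eq, finrank_num_prod hS h hQ hF' hK]
    push_cast
    refine Finset.sum_congr rfl fun j _ => ?_
    by_cases hj : deg j ≤ c
    · rw [if_pos hj, if_pos hj, numRank_eq]
    · rw [if_neg hj, if_neg hj]
  have hpole : ∀ c : ℤ, poleOrder H (prodMap πA πZ) (q ^ s) c = ∑ i ∈ Finset.range (A.dim + 1),
        (numRank H A i : ℤ) * poleOrder H πZ (q ^ s) (c - i) := by
    intro c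
    rw [poleOrder_prod hS h hQ hπA hK, ← sum_group deg A.dim h.le
      (fun i => poleOrder H πZ (q ^ s) (c - i)) _ hβ]
  refine ⟨hpos, fun c => ?_, hpole, fun hp c => ?_⟩
  · have h1 := hrank c
    have h2 : ∀ i, (numRank H A i : ℤ) * (if i ≤ c then (numRank H Z (c - i) : ℤ) else 0) =
        ((if i ≤ c then numRank H A i * numRank H Z (c - i) else 0 : ℕ) : ℤ) := by
      intro i
      split_ifs <;> push_cast <;> ring
    rw [Finset.sum_congr rfl fun i _ => h2 i] at h1
    exact_mod_cast h1
  have hle : ∀ c : ℕ, (numRank H Z c : ℤ) ≤ poleOrder H πZ (q ^ s) c :=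
    rank_le_poleOrder hS hp (frob_cycles_right hF')
  refine ⟨hle c, ?_⟩
  have hneg : ∀ c : ℤ, c < 0 → poleOrder H πZ (q ^ s) c = 0 := by
    intro c hc
    rw [poleOrder_pure hS hp, finrank_eig_out hS (Or.inl (by omega))]
    rfl
  have hterm : ∀ i ∈ Finset.range (A.dim + 1), 0 ≤ (numRank H A i : ℤ) *
      (poleOrder H πZ (q ^ s) ((c : ℤ) - i) -
        (if i ≤ c then (numRank H Z (c - i) : ℤ) else 0)) := by
    intro i _
    refine mul_nonneg (Int.natCast_nonneg _) ?_
    split_ifs with hic
    · have h1 := hle (c - i)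
      rw [Nat.cast_sub hic] at h1
      omega
    · rw [hneg _ (by omega)]
      simp
  have hdiff : poleOrder H (prodMap πA πZ) (q ^ s) c - numRank H (A.prod Z) c =
      ∑ i ∈ Finset.range (A.dim + 1), (numRank H A i : ℤ) *
      (poleOrder H πZ (q ^ s) ((c : ℤ) - i) -
        (if i ≤ c then (numRank H Z (c - i) : ℤ) else 0)) := by
    rw [hpole, hrank, ← Finset.sum_sub_distrib]
    exact Finset.sum_congr rfl fun i _ => by ring
  have h1 : PoleFormula H (prodMap πA πZ) (q ^ s) c ↔ ∀ i ∈ Finset.range (A.dim + 1),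
      (numRank H A i : ℤ) * (poleOrder H πZ (q ^ s) ((c : ℤ) - i) -
        (if i ≤ c then (numRank H Z (c - i) : ℤ) else 0)) = 0 := by
    rw [PoleFormula, ← sub_eq_zero, hdiff, Finset.sum_eq_zero_iff_of_nonneg hterm]
  rw [h1]
  constructor
  · intro h2 i hi hic
    have h3 := h2 i (Finset.mem_range.2 (by omega))
    have h4 : (numRank H A i : ℤ) ≠ 0 := by exact_mod_cast (hpos i hi).ne'
    have h5 := (mul_eq_zero.1 h3).resolve_left h4
    rw [if_pos hic, sub_eq_zero] at h5
    rw [PoleFormula, Nat.cast_sub hic]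
    exact h5
  · intro h2 i hi
    rw [Finset.mem_range] at hi
    split_ifs with hic
    · have h3 := h2 i (by omega) hic
      rw [PoleFormula, Nat.cast_sub hic] at h3
      rw [h3, sub_self, mul_zero]
    · rw [hneg _ (by omega), sub_zero, mul_zero]

end Pool.Agent.H857.SX
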